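import Pool.Agent.Lib.MP_aed41b_nt.B

/-! After a difference `d m = m - 2` the next record is again of this form and belongs to a twin
prime pair, unless `c k - k` avoids the centres of twin prime pairs at about `√m / 4` values. -/

open Pool.Agent.Lib.MP_aed41b_nt

theorem Pool.Agent.Results.MP_aed41b_nt.NextRecord.result (m : ℕ) (hm : 9 ≤ m)
    (hd : d m = m - 2) :
    (∃ n, m < n ∧ IsRecord n ∧ (∀ k, m < k → k < n → ¬ IsRecord k) ∧ d n = n - 2 ∧
      (d n).Prime ∧ (d n - 2).Prime) ∨
    ((∀ k ∈ Finset.Icc m (2 * m - 4), ¬ ((c k - k - 1).Prime ∧ (c k - k + 1).Prime)) ∧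
      (m : ℝ) - 3 ≤ 4 * √m * ((Finset.Icc m (2 * m - 4)).image fun k => c k - k).card) := by
  have cm : c m = 3 * (m - 2) := by
    obtain ⟨j, rfl⟩ : ∃ j, m = j + 1 := ⟨m - 1, by omega⟩
    have := d_le (n := j) (by omega)
    have := (step (n := j) (by omega)).1
    omega
  by_cases h : ∀ k ∈ Finset.Icc m (2 * m - 4), ¬ ((c k - k - 1).Prime ∧ (c k - k + 1).Prime)
  · refine .inr ⟨h, ?_⟩
    have := Finset.card_le_mul_card_image (f := fun k => c k - k) (Finset.Icc m (2 * m - 4))
      (Nat.sqrt (16 * m)) fun D hD => by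
        obtain ⟨k0, k1, k2⟩ := Finset.mem_image.1 hD
        obtain ⟨k, k3, k4⟩ := Finset.exists_min_image
          ((Finset.Icc m (2 * m - 4)).filter fun k => c k - k = D) id ⟨k0, by simpa using ⟨by simpa using k1, k2⟩⟩
        obtain ⟨k5, k6⟩ := Finset.mem_filter.1 k3
        have k7 := Finset.mem_Icc.1 k5
        have := mono (k := m) (j := k) (by omega) k7.1
        have := inv (n := k) (by omega)
        obtain ⟨q, q1, q2⟩ := short (k := k) (D := D) (by omega) (by omega) (by omega)
          (k6 ▸ h k k5)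
        refine (Finset.card_le_card (t := Finset.Ico k (k + 2 * q)) fun j hj => ?_).trans ?_
        · have j1 := k4 j hj
          have j2 := (Finset.mem_filter.1 hj).2
          have := q2 j
          simp only [id] at j1
          rw [Finset.mem_Ico]
          omega
        · rw [Nat.card_Ico, Nat.add_sub_cancel_left, Nat.le_sqrt]
          have : D + 1 ≤ 4 * m := by omega
          nlinarith
    rw [Nat.card_Icc] at this
    have e : ((2 * m - 4 + 1 - m : ℕ) : ℝ) = m - 3 := by
      rw [show 2 * m - 4 + 1 - m = m - 3 by omega, Nat.cast_sub (by omega)]; simp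
    have s1 : (Nat.sqrt (16 * m) : ℝ) ≤ 4 * √m := by
      refine Real.nat_sqrt_le_real_sqrt.trans_eq ?_
      push_cast
      rw [show (16 : ℝ) = 4 ^ 2 by norm_num, Real.sqrt_mul (by positivity),
        Real.sqrt_sq (by norm_num)]
    rw [← e]
    exact (Nat.cast_le.2 this).trans (by push_cast; gcongr)
  push Not at h
  obtain ⟨k, k1, p1, p2⟩ := h
  rw [Finset.mem_Icc] at k1
  have := mono (k := m) (j := k) (by omega) k1.1
  have := inv (n := k) (by omega)
  obtain ⟨D, hD⟩ : ∃ D, c k = D + k := ⟨c k - k, by omega⟩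
  rw [hD, Nat.add_sub_cancel] at p1 p2
  have t := top (k := k) (by omega) hD (by omega) p1 p2
  refine .inl ⟨D + 3, by omega, isRecord_of (by omega) t, fun j j1 j2 hj => ?_, t, t ▸ p2, ?_⟩
  · have j3 := hj.2 m (by omega) j1
    obtain ⟨i, rfl⟩ : ∃ i, j = i + 1 := ⟨j - 1, by omega⟩
    have := (step (n := i) (by omega)).1
    rcases le_or_gt k i with h | h
    · have := run (k := k) (by omega) hD (by omega) p1 p2 h (by omega)
      have := run (k := k) (by omega) hD (by omega) p1 p2 (j := i + 1) (by omega) (by omega)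
      omega
    · have := d_le (n := i) (by omega)
      have := mono (k := m) (j := i) (by omega) (by omega)
      omega
  · rw [t]; exact p1
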