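import Pool.Agent.Lib.MP_aed41b_nt.A

/-! The records of the differences are unbounded. -/

open Pool.Agent.Lib.MP_aed41b_nt

theorem Pool.Agent.Results.MP_aed41b_nt.Unbounded.result (B : ℕ) :
    ∃ n, n ≤ 2 * primorial B + 6 ∧ IsRecord n ∧ B < d n := by
  classical
  obtain ⟨n, h1, h2, h3⟩ := large B (le_refl 2)
  have h : ∃ n, 2 ≤ n ∧ B < d n := ⟨n, h1.le, h3⟩
  have := Nat.find_min' h ⟨h1.le, h3⟩
  obtain ⟨s1, s2⟩ := Nat.find_spec h
  refine ⟨Nat.find h, by omega, ⟨s1, fun k k1 k2 => ?_⟩, s2⟩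
  have := Nat.find_min h k2
  omega
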